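import Pool.Agent.W798.KF.Stm

/-!
# From the linear inequalities to sets of positive reals (`S_KP`)
-/

set_option autoImplicit false
set_option maxHeartbeats 1000000

open Finset
open scoped Pointwise

namespace Pool.Agent.W73.KF

open Pool.Agent.W798.SP Pool.Agent.W798.KF

theorem natlog_le (N : ℕ) (hN : 1 ≤ N) : (Nat.log 2 N : ℝ) ≤ 2 * Real.log N := by
  have h1 : 2 ^ Nat.log 2 N ≤ N := Nat.pow_log_le_self 2 (by omega)
  have h2 : ((2 : ℝ)) ^ Nat.log 2 N ≤ N := by exact_mod_cast h1
  have h3 := Real.log_le_log (by positivity) h2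
  rw [Real.log_pow] at h3
  have h4 : (1 : ℝ) / 2 < Real.log 2 := by
    have := Real.log_two_gt_d9
    linarith
  have h5 : (0 : ℝ) ≤ (Nat.log 2 N : ℝ) := Nat.cast_nonneg _
  nlinarith

theorem lj_le {η : ℝ} (hη : 0 < η) (N : ℕ) (hN : 1 ≤ N) :
    Real.log ((Nat.log 2 N : ℝ) + 1) ≤ η * (1 + 2 * Real.log N) - Real.log η := by
  have h0 : (0 : ℝ) ≤ (Nat.log 2 N : ℝ) := Nat.cast_nonneg _
  have h1 := Real.log_le_sub_one_of_pos (x := η * ((Nat.log 2 N : ℝ) + 1)) (by positivity)
  rw [Real.log_mul hη.ne' (by positivity)] at h1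
  have h2 := natlog_le N hN
  have h3 : η * ((Nat.log 2 N : ℝ) + 1) ≤ η * (1 + 2 * Real.log N) :=
    mul_le_mul_of_nonneg_left (by linarith) hη.le
  linarith

theorem sm_ne {A : Finset ℝ} (hA : A.Nonempty) : ∀ i, (sm A i).Nonempty
  | 0 => hA
  | i + 1 => hA.add (sm_ne hA i)

theorem pr_ne {A : Finset ℝ} (hA : A.Nonempty) : ∀ i, (pr A i).Nonempty
  | 0 => hA
  | i + 1 => hA.mul (pr_ne hA i)

theorem pr_pos {A : Finset ℝ} (hA : ∀ x ∈ A, 0 < x) : ∀ i, ∀ x ∈ pr A i, 0 < x
  | 0, x, hx => hA x hx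
  | i + 1, x, hx => by
    obtain ⟨a, ha, b, hb, rfl⟩ := Finset.mem_mul.mp hx
    exact mul_pos (hA a ha) (pr_pos hA i b hb)

theorem kst_log (h : S_KST) {A : Finset ℝ} (hA : A.Nonempty) (hpos : ∀ x ∈ A, 0 < x)
    (i i' : ℕ) : 3 * Real.log A.card + Real.log (sm A i).card + Real.log (pr A i').card ≤
      Real.log 512 + 2 * Real.log (sm A (i + 1)).card + 2 * Real.log (pr A (i' + 1)).card := by
  have h1 := h A (sm A i) (pr A i') hpos (fun g hg => (pr_pos hpos i' g hg).ne')
  have h2 : (A.card : ℝ) ^ 3 * (sm A i).card * (pr A i').card ≤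
      512 * ((sm A (i + 1)).card : ℝ) ^ 2 * ((pr A (i' + 1)).card : ℝ) ^ 2 := by
    exact_mod_cast h1
  have p1 : (0 : ℝ) < A.card := by exact_mod_cast hA.card_pos
  have p2 : (0 : ℝ) < (sm A i).card := by exact_mod_cast (sm_ne hA i).card_pos
  have p3 : (0 : ℝ) < (pr A i').card := by exact_mod_cast (pr_ne hA i').card_pos
  have p4 : (0 : ℝ) < (sm A (i + 1)).card := by exact_mod_cast (sm_ne hA (i + 1)).card_pos
  have p5 : (0 : ℝ) < (pr A (i' + 1)).card := by exact_mod_cast (pr_ne hA (i' + 1)).card_pos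
  have h3 := Real.log_le_log (by positivity) h2
  rw [Real.log_mul (by positivity) (by positivity), Real.log_mul (by positivity) (by positivity),
    Real.log_mul (by positivity) (by positivity), Real.log_mul (by positivity) (by positivity),
    Real.log_pow, Real.log_pow, Real.log_pow] at h3
  push_cast at h3
  linarith

theorem ss_log (h : S_SS) {A : Finset ℝ} (hA : A.Nonempty) (hpos : ∀ x ∈ A, 0 < x) :
    19 * Real.log A.card + 5 * Real.log (sm A 1).card ≤
      6 * (Real.log 4 + Real.log ((Nat.log 2 A.card : ℝ) + 1)) +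
      5 * (Real.log 4097 + Real.log ((Nat.log 2 (sm A 2).card : ℝ) + 1)) +
      9 * Real.log (pr A 1).card + 10 * Real.log (sm A 2).card := by
  have h1 := h A (sm A 1) hA (sm_ne hA 1) hpos
  have h2 : (A.card : ℝ) ^ 19 * ((sm A 1).card : ℝ) ^ 5 ≤
      (4 * ((Nat.log 2 A.card : ℝ) + 1)) ^ 6 *
      (4097 * ((Nat.log 2 (sm A 2).card : ℝ) + 1)) ^ 5 * ((pr A 1).card : ℝ) ^ 9 *
        ((sm A 2).card : ℝ) ^ 10 := by
    exact_mod_cast h1
  have p1 : (0 : ℝ) < A.card := by exact_mod_cast hA.card_pos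
  have p2 : (0 : ℝ) < (sm A 1).card := by exact_mod_cast (sm_ne hA 1).card_pos
  have p3 : (0 : ℝ) < (pr A 1).card := by exact_mod_cast (pr_ne hA 1).card_pos
  have p4 : (0 : ℝ) < (sm A 2).card := by exact_mod_cast (sm_ne hA 2).card_pos
  have h3 := Real.log_le_log (by positivity) h2
  rw [Real.log_mul (by positivity) (by positivity), Real.log_mul (by positivity) (by positivity),
    Real.log_mul (by positivity) (by positivity), Real.log_mul (by positivity) (by positivity),
    Real.log_pow, Real.log_pow, Real.log_pow, Real.log_pow, Real.log_pow, Real.log_pow,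
    Real.log_mul (by norm_num) (by positivity), Real.log_mul (by norm_num) (by positivity)] at h3
  push_cast at h3
  linarith

theorem sm2_le {A : Finset ℝ} (hA : A.Nonempty) :
    Real.log (sm A 2).card ≤ 3 * Real.log A.card := by
  have h1 : (sm A 2).card ≤ A.card * (A.card * A.card) :=
    (Finset.card_add_le (s := A) (t := A + A)).trans
      (Nat.mul_le_mul_left _ (Finset.card_add_le (s := A) (t := A)))
  have h2 : ((sm A 2).card : ℝ) ≤ (A.card : ℝ) ^ 3 := by
    have : ((sm A 2).card : ℝ) ≤ (A.card : ℝ) * ((A.card : ℝ) * A.card) := by exact_mod_cast h1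
    calc ((sm A 2).card : ℝ) ≤ (A.card : ℝ) * ((A.card : ℝ) * A.card) := this
      _ = (A.card : ℝ) ^ 3 := by ring
  have p4 : (0 : ℝ) < (sm A 2).card := by exact_mod_cast (sm_ne hA 2).card_pos
  have h3 := Real.log_le_log p4 h2
  rw [Real.log_pow] at h3
  exact_mod_cast h3

theorem tKP (hK : S_KST) (hS : S_SS) (hL : S_LI) (hP : S_PO2) : S_KP := by
  intro j δ hδ
  obtain ⟨C, hC0, hC⟩ := hL j
  have hC1 : 0 < C + 1 := by linarith
  obtain ⟨δ', hδ'⟩ : ∃ δ' : ℝ, δ' = δ / (2 * (C + 1)) := ⟨_, rfl⟩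
  have hδ'0 : 0 < δ' := by rw [hδ']; positivity
  obtain ⟨η, hη⟩ : ∃ η : ℝ, η = δ' / 42 := ⟨_, rfl⟩
  have hη0 : 0 < η := by rw [hη]; positivity
  obtain ⟨c', hc', hPO⟩ := hP δ' hδ'0
  obtain ⟨C0, hC0d⟩ : ∃ C0 : ℝ, C0 = |6 * Real.log 4 + 5 * Real.log 4097 + 11 * η -
    11 * Real.log η| + |Real.log c'| := ⟨_, rfl⟩
  have hC00 : 0 ≤ C0 := by rw [hC0d]; positivity
  refine ⟨Real.exp (-(C * (Real.log 512 + C0))), Real.exp_pos _, ?_⟩
  intro A hA hpos
  have p1 : (0 : ℝ) < A.card := by exact_mod_cast hA.card_pos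
  have hA1 : 1 ≤ A.card := hA.card_pos
  have hn0 : 0 ≤ Real.log A.card := Real.log_nonneg (by exact_mod_cast hA1)
  have h512 : 0 ≤ Real.log 512 := Real.log_nonneg (by norm_num)
  obtain ⟨E, hE⟩ : ∃ E : ℝ, E = 2 * δ' * Real.log A.card + C0 := ⟨_, rfl⟩
  have hE0 : 0 ≤ E := by rw [hE]; positivity
  have key := hC (fun i => Real.log (sm A i).card) (fun i => Real.log (pr A i).card)
    (Real.log A.card) (Real.log 512) E h512 hE0 (fun i i' => kst_log hK hA hpos i i') ?_ ?_
  · have q1 : C * (2 * δ') ≤ δ := by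
      have e1 : 2 * δ' = δ / (C + 1) := by rw [hδ']; field_simp
      rw [e1, ← mul_div_assoc, div_le_iff₀ hC1]
      nlinarith
    have q2 : C * (2 * δ') * Real.log A.card ≤ δ * Real.log A.card :=
      mul_le_mul_of_nonneg_right q1 hn0
    have q3 : (ex j - δ) * Real.log A.card ≤
        max (Real.log (sm A (j + 1)).card) (Real.log (pr A (j + 1)).card) +
          C * (Real.log 512 + C0) := by
      rw [hE] at key
      linarith
    have e1 : (A.card : ℝ) ^ (ex j - δ) = Real.exp ((ex j - δ) * Real.log A.card) := by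
      rw [Real.rpow_def_of_pos p1, mul_comm]
    rw [e1, ← Real.exp_add]
    have p4 : (0 : ℝ) < (sm A (j + 1)).card := by exact_mod_cast (sm_ne hA (j + 1)).card_pos
    have p5 : (0 : ℝ) < (pr A (j + 1)).card := by exact_mod_cast (pr_ne hA (j + 1)).card_pos
    rcases le_total (Real.log (sm A (j + 1)).card) (Real.log (pr A (j + 1)).card) with hm | hm
    · rw [max_eq_right hm] at q3
      refine le_trans ?_ (le_max_right _ _)
      calc Real.exp (-(C * (Real.log 512 + C0)) + (ex j - δ) * Real.log A.card)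
          ≤ Real.exp (Real.log (pr A (j + 1)).card) := Real.exp_le_exp.mpr (by linarith)
        _ = _ := Real.exp_log p5
    · rw [max_eq_left hm] at q3
      refine le_trans ?_ (le_max_left _ _)
      calc Real.exp (-(C * (Real.log 512 + C0)) + (ex j - δ) * Real.log A.card)
          ≤ Real.exp (Real.log (sm A (j + 1)).card) := Real.exp_le_exp.mpr (by linarith)
        _ = _ := Real.exp_log p4
  · -- the second inequality
    have h1 := ss_log hS hA hpos
    have h2 := lj_le hη0 A.card hA1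
    have h3 := lj_le hη0 (sm A 2).card (sm_ne hA 2).card_pos
    have h4 := sm2_le hA
    have h5 : η * (1 + 2 * Real.log (sm A 2).card) ≤ η * (1 + 6 * Real.log A.card) :=
      mul_le_mul_of_nonneg_left (by linarith) hη0.le
    have h6 := le_abs_self (6 * Real.log 4 + 5 * Real.log 4097 + 11 * η - 11 * Real.log η)
    have h7 := abs_nonneg (Real.log c')
    have h8 : 42 * η = δ' := by rw [hη]; ring
    have h9 : 42 * η * Real.log A.card ≤ 2 * δ' * Real.log A.card := by
      rw [h8]
      nlinarith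
    show 19 * Real.log A.card + 5 * Real.log (sm A 1).card ≤
      E + 9 * Real.log (pr A 1).card + 10 * Real.log (sm A 2).card
    rw [hE, hC0d]
    nlinarith
  · -- the third inequality
    have h1 := hPO A hA hpos
    have p2 : (0 : ℝ) < (A + A).card := by exact_mod_cast (hA.add hA).card_pos
    have p3 : (0 : ℝ) < (A * A).card := by exact_mod_cast (hA.mul hA).card_pos
    have h2 := Real.log_le_log (by positivity) h1
    rw [Real.log_mul hc'.ne' (by positivity), Real.log_rpow p1,
      Real.log_mul (by positivity) (by positivity), Real.log_pow, Real.log_pow] at h2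
    push_cast at h2
    have h3 := neg_abs_le (Real.log c')
    have h4 := abs_nonneg (6 * Real.log 4 + 5 * Real.log 4097 + 11 * η - 11 * Real.log η)
    have h5 : δ' * Real.log A.card ≤ 2 * δ' * Real.log A.card := by nlinarith
    show 226 * Real.log A.card ≤ E + 103 * Real.log (A + A).card + 66 * Real.log (A * A).card
    rw [hE, hC0d]
    linarith

end Pool.Agent.W73.KF
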